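import Pool.Agent.LibSimpChain.Basic

/-!
If the inclusion of the link of a vertex `e` into the deletion of `e` is chain null-homotopic, then
the long exact sequence of the pair breaks into split short exact sequences.
-/

open Finset

namespace Pool.Agent.LibSimpChain

section Generic

variable {E : Type} [LinearOrder E]

lemma mem_cycles {K : Set (Finset E)} {d : ℤ} {c : Ch E} :
    c ∈ cycles K d ↔ c ∈ chains K d ∧ bdry c = 0 := Iff.rfl

lemma mem_bdries {K : Set (Finset E)} {d : ℤ} {z : cycles K d} :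
    z ∈ bdries K d ↔ ∃ y : Ch E, y ∈ chains K (d+1) ∧ bdry y = z := Iff.rfl

/-- The class of a cycle in homology. -/
noncomputable def cls (K : Set (Finset E)) (d : ℤ) : cycles K d →+ redH K d :=
  QuotientAddGroup.mk' (bdries K d)

lemma cls_eq_zero {K : Set (Finset E)} {d : ℤ} {z : cycles K d} :
    cls K d z = 0 ↔ ∃ y : Ch E, y ∈ chains K (d+1) ∧ bdry y = z := by
  rw [← mem_bdries]
  exact QuotientAddGroup.eq_zero_iff z

lemma cls_surj (K : Set (Finset E)) (d : ℤ) (x : redH K d) : ∃ z, cls K d z = x :=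
  QuotientAddGroup.mk'_surjective (bdries K d) x

/-- descend a map of cycles to homology -/
lemma exists_hom {K K' : Set (Finset E)} {d d' : ℤ} (f : Ch E →ₗ[ℤ] Ch E)
    (h1 : ∀ c ∈ cycles K d, f c ∈ cycles K' d')
    (h2 : ∀ y ∈ chains K (d+1), ∃ y' ∈ chains K' (d'+1), bdry y' = f (bdry y)) :
    ∃ F : redH K d →+ redH K' d', ∀ z : cycles K d, F (cls K d z) = cls K' d' ⟨f z, h1 z z.2⟩ := by
  let g : cycles K d →+ cycles K' d' :=
    { toFun := fun z => ⟨f z, h1 z z.2⟩
      map_zero' := by apply Subtype.ext; exact map_zero f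
      map_add' := by intro x y; apply Subtype.ext; exact map_add f _ _ }
  refine ⟨QuotientAddGroup.map (bdries K d) (bdries K' d') g ?_, fun z => rfl⟩
  intro z hz
  rw [mem_bdries] at hz
  obtain ⟨y, hy, hyz⟩ := hz
  rw [AddSubgroup.mem_comap, mem_bdries]
  obtain ⟨y', hy', hyy'⟩ := h2 y hy
  refine ⟨y', hy', ?_⟩
  rw [hyy', hyz]; rfl

theorem split_of_nullhomotopy {K D L : Set (Finset E)} {e : E}
    (hD : ∀ σ, σ ∈ D ↔ σ ∈ K ∧ e ∉ σ)
    (hK : ∀ σ ∈ K, ∀ x ∈ σ, σ.erase x ∈ K)
    (hL : ∀ τ, τ ∈ L ↔ e ∉ τ ∧ insert e τ ∈ K)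
    (s : Ch E →ₗ[ℤ] Ch E)
    (hs1 : ∀ (d : ℤ) (c : Ch E), c ∈ chains L d → s c ∈ chains D (d+1))
    (hs2 : ∀ (d : ℤ) (c : Ch E), c ∈ chains L d → bdry (s c) + s (bdry c) = c) (d : ℤ) :
    ∃ (i : redH D d →+ redH K d) (p : redH K d →+ redH L (d-1)),
    (∀ z : cycles D d, ∃ h : (z : Ch E) ∈ cycles K d, i (cls D d z) = cls K d ⟨z, h⟩) ∧
    (∀ z : cycles K d, ∃ h : strip e (z : Ch E) ∈ cycles L (d-1),
        p (cls K d z) = cls L (d-1) ⟨strip e z, h⟩) ∧
    Function.Injective i ∧ Function.Exact i p ∧ Function.Surjective p ∧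
    ∃ φ : redH K d ≃+ redH D d × redH L (d-1),
      (∀ x, φ (i x) = (x, 0)) ∧ (∀ y, (φ y).2 = p y) := by
  -- elementary facts
  have hDK : D ⊆ K := fun σ hσ => ((hD σ).mp hσ).1
  have hlink : ∀ σ ∈ K, e ∈ σ → σ.erase e ∈ L := by
    intro σ h1 h2
    rw [hL]
    exact ⟨by simp, by rwa [Finset.insert_erase h2]⟩
  have stripD : ∀ (d : ℤ) (c : Ch E), c ∈ chains D d → strip e c = 0 := by
    intro d c hc
    have : strip e c ∈ (⊥ : Submodule ℤ (Ch E)) := by
      apply map_chains (strip e) _ hc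
      intro σ h1 h2
      rw [strip_single, if_neg ((hD σ).mp h1).2]
      exact Submodule.zero_mem _
    exact (Submodule.mem_bot ℤ).mp this
  have dec : ∀ (d : ℤ) (c : Ch E), c ∈ chains K d → c - wd e (strip e c) ∈ chains D d := by
    intro d c hc
    have := map_chains (P := chains D d) (LinearMap.id - wd e ∘ₗ strip e) (by
      intro σ h1 h2
      simp only [LinearMap.sub_apply, LinearMap.id_apply, LinearMap.comp_apply]
      rw [strip_single]
      split_ifs with he
      · rw [map_smul, wd_single, if_neg (by simp), smul_smul, sg_erase_ge (lt_irrefl e), sg_mul_self,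
          one_smul, Finset.insert_erase he, sub_self]
        exact Submodule.zero_mem _
      · rw [map_zero, sub_zero]
        exact single_mem_chains ((hD σ).mpr ⟨h1, he⟩) h2) hc
    simpa using this
  have wdL : ∀ (d : ℤ) (c : Ch E), c ∈ chains L d → wd e c ∈ chains K (d+1) := by
    intro d c hc
    exact wd_mem_chains (fun σ h1 _ => ((hL σ).mp h1).2) hc
  have stripwd : ∀ (d : ℤ) (c : Ch E), c ∈ chains L d → strip e (wd e c) = c := by
    intro d c hc
    have : strip e (wd e c) - c ∈ (⊥ : Submodule ℤ (Ch E)) := by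
      have := map_chains (P := (⊥ : Submodule ℤ (Ch E))) (strip e ∘ₗ wd e - LinearMap.id) (by
        intro σ h1 h2
        simp only [LinearMap.sub_apply, LinearMap.id_apply, LinearMap.comp_apply]
        rw [strip_wd_self ((hL σ).mp h1).1, sub_self]
        exact Submodule.zero_mem _) hc
      simpa using this
    exact sub_eq_zero.mp ((Submodule.mem_bot ℤ).mp this)
  have LD : L ⊆ D := by
    intro τ hτ
    obtain ⟨h1, h2⟩ := (hL τ).mp hτ
    rw [hD]
    refine ⟨?_, h1⟩
    have := hK _ h2 e (Finset.mem_insert_self _ _)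
    rwa [Finset.erase_insert h1] at this
  have stripK : ∀ (d : ℤ) (c : Ch E), c ∈ chains K (d+1) → strip e c ∈ chains L d := by
    intro d c hc
    have := strip_mem_chains hlink hc
    rwa [add_sub_cancel_right] at this
  have hstripcyc : ∀ c ∈ cycles K d, strip e c ∈ cycles L (d-1) := by
    intro c hc
    rw [mem_cycles] at hc ⊢
    refine ⟨strip_mem_chains hlink hc.1, ?_⟩
    rw [bdry_strip, hc.2]; simp
  have hcycDK : ∀ c ∈ cycles D d, (LinearMap.id : Ch E →ₗ[ℤ] Ch E) c ∈ cycles K d := by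
    intro c hc
    rw [mem_cycles] at hc ⊢
    exact ⟨chains_mono hDK d hc.1, hc.2⟩
  -- the maps
  obtain ⟨i, hi⟩ := exists_hom (K := D) (K' := K) (d := d) (d' := d) LinearMap.id hcycDK
    (fun y hy => ⟨y, chains_mono hDK (d+1) hy, rfl⟩)
  obtain ⟨p, hp⟩ := exists_hom (K := K) (K' := L) (d := d) (d' := d-1) (strip e) hstripcyc
    (fun y hy => ⟨- strip e y, by
      apply Submodule.neg_mem
      rw [sub_add_cancel]
      exact stripK d y hy, by
      rw [map_neg, bdry_strip, neg_neg]⟩)
  have hsec_mem : ∀ z ∈ cycles L (d-1), (wd e - s) z ∈ cycles K d := by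
    intro z hz
    rw [mem_cycles] at hz ⊢
    have h1 := wdL _ z hz.1
    have h2 := chains_mono hDK _ (hs1 _ z hz.1)
    rw [sub_add_cancel] at h1 h2
    have h0 : bdry z = 0 := hz.2
    have h3 := hs2 _ z hz.1
    rw [h0, map_zero, add_zero] at h3
    refine ⟨Submodule.sub_mem _ h1 h2, ?_⟩
    rw [LinearMap.sub_apply, map_sub, bdry_wd_apply, h0, h3]
    simp
  obtain ⟨t, ht⟩ := exists_hom (K := L) (K' := K) (d := d-1) (d' := d) (wd e - s) hsec_mem
    (fun y hy => ⟨s y - wd e y, by
      rw [sub_add_cancel] at hy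
      exact Submodule.sub_mem _ (chains_mono hDK _ (hs1 d y hy)) (wdL d y hy), by
      rw [sub_add_cancel] at hy
      have h3 := hs2 d y hy
      rw [LinearMap.sub_apply, map_sub, bdry_wd_apply]
      have h4 : bdry (s y) = y - s (bdry y) := eq_sub_of_add_eq h3
      rw [h4]
      abel⟩)
  -- injectivity
  have hinj : Function.Injective i := by
    rw [injective_iff_map_eq_zero]
    intro x hx
    obtain ⟨z, rfl⟩ := cls_surj D d x
    rw [hi, cls_eq_zero] at hx
    obtain ⟨y, hy, hyz⟩ := hx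
    have hyz' : bdry y = (z : Ch E) := hyz
    have hzc := mem_cycles.mp z.2
    have hy1 := stripK d y hy
    have hz0 : strip e (z : Ch E) = 0 := stripD d _ hzc.1
    have hb1 : bdry (strip e y) = 0 := by
      rw [bdry_strip, hyz', hz0, neg_zero]
    have h3 := hs2 d _ hy1
    rw [hb1, map_zero, add_zero] at h3
    rw [cls_eq_zero]
    refine ⟨(y - wd e (strip e y)) + s (strip e y), ?_, ?_⟩
    · exact Submodule.add_mem _ (dec (d+1) y hy) (hs1 d _ hy1)
    · rw [map_add, map_sub, bdry_wd_apply, hb1, map_zero, sub_zero, h3, hyz']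
      simp
  -- exactness
  have hexact : Function.Exact i p := by
    intro y
    constructor
    · intro hy
      obtain ⟨z, rfl⟩ := cls_surj K d y
      rw [hp, cls_eq_zero] at hy
      obtain ⟨u, hu, huz⟩ := hy
      have huz' : bdry u = strip e (z : Ch E) := huz
      have hzc := mem_cycles.mp z.2
      rw [sub_add_cancel] at hu
      have hwu := wdL d u hu
      have hz' : (z : Ch E) + bdry (wd e u) ∈ cycles D d := by
        rw [mem_cycles]
        constructor
        · rw [bdry_wd_apply, huz']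
          have h1 := dec d _ hzc.1
          have h2 := chains_mono LD d hu
          have h5 := Submodule.add_mem _ h1 h2
          have e1 : (z : Ch E) + (u - wd e (strip e (z : Ch E)))
              = (z : Ch E) - wd e (strip e (z : Ch E)) + u := by abel
          rw [e1]; exact h5
        · rw [map_add, hzc.2, bdry_bdry, add_zero]
      refine ⟨cls D d ⟨_, hz'⟩, ?_⟩
      rw [hi, ← sub_eq_zero, ← map_sub, cls_eq_zero]
      refine ⟨wd e u, hwu, ?_⟩
      simp
    · rintro ⟨x, rfl⟩
      obtain ⟨z, rfl⟩ := cls_surj D d x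
      rw [hi, hp, cls_eq_zero]
      refine ⟨0, Submodule.zero_mem _, ?_⟩
      have hz0 : strip e (z : Ch E) = 0 := stripD d _ (mem_cycles.mp z.2).1
      rw [map_zero]
      exact hz0.symm
  have hpt : ∀ x, p (t x) = x := by
    intro x
    obtain ⟨z, rfl⟩ := cls_surj L (d-1) x
    rw [ht, hp]
    congr 1
    apply Subtype.ext
    have hzc := mem_cycles.mp z.2
    show strip e ((wd e - s) (z : Ch E)) = z
    rw [LinearMap.sub_apply, map_sub, stripwd _ _ hzc.1, stripD _ _ (hs1 _ _ hzc.1), sub_zero]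
  have hsurj : Function.Surjective p := fun x => ⟨t x, hpt x⟩
  refine ⟨i, p, fun z => ⟨_, hi z⟩, fun z => ⟨_, hp z⟩, hinj, hexact, hsurj, ?_⟩
  have hinj' : Function.Injective i.toIntLinearMap := hinj
  have hexact' : Function.Exact i.toIntLinearMap p.toIntLinearMap := hexact
  obtain ⟨φ, hφ1, hφ2⟩ := hexact'.splitSurjectiveEquiv hinj' ⟨t.toIntLinearMap, by
    apply LinearMap.ext
    intro x
    exact hpt x⟩
  refine ⟨φ.toAddEquiv, ?_, ?_⟩
  · intro x
    have := LinearMap.congr_fun hφ1 x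
    have h2 : i x = φ.symm (LinearMap.inl ℤ _ _ x) := this
    rw [h2]
    simp
  · intro y
    have := LinearMap.congr_fun hφ2 y
    have h2 : p y = (φ y).2 := this
    rw [h2]
    rfl


lemma cycles_mono {K D : Set (Finset E)} (h : D ⊆ K) (d : ℤ) : cycles D d ≤ cycles K d :=
  fun _ hz => ⟨chains_mono h d hz.1, hz.2⟩

lemma bdries_mono {K D : Set (Finset E)} (h : D ⊆ K) (d : ℤ) :
    bdries D d ≤ (bdries K d).comap (AddSubgroup.inclusion (cycles_mono h d)) := by
  intro z hz
  obtain ⟨y, hy, hyz⟩ := mem_bdries.mp hz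
  exact mem_bdries.mpr ⟨y, chains_mono h _ hy, hyz⟩

end Generic

end Pool.Agent.LibSimpChain
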