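import Pool.Agent.LibSimpChain.Defs

open Finset

namespace Pool.Agent.LibSimpChain

section Generic

variable {E : Type} [LinearOrder E]

/-- wedge -/
noncomputable def wd (x : E) : Ch E →ₗ[ℤ] Ch E :=
  Finsupp.linearCombination ℤ (fun σ : Finset E => if x ∈ σ then 0 else sg x σ • Finsupp.single (insert x σ) (1:ℤ))

lemma bdry_single (σ : Finset E) : bdry (Finsupp.single σ 1) = ∑ x ∈ σ, sg x σ • Finsupp.single (σ.erase x) (1:ℤ) := by
  simp [bdry]

lemma strip_single (e : E) (σ : Finset E) : strip e (Finsupp.single σ 1) =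
    if e ∈ σ then sg e σ • Finsupp.single (σ.erase e) (1:ℤ) else 0 := by
  simp [strip]

lemma wd_single (x : E) (σ : Finset E) : wd x (Finsupp.single σ 1) =
    if x ∈ σ then 0 else sg x σ • Finsupp.single (insert x σ) (1:ℤ) := by
  simp [wd]

omit [LinearOrder E] in
lemma ext_single {M : Type*} [AddCommGroup M] {f g : Ch E →ₗ[ℤ] M}
    (h : ∀ σ, f (Finsupp.single σ 1) = g (Finsupp.single σ 1)) : f = g :=
  Finsupp.lhom_ext' (fun σ => LinearMap.ext_ring (h σ))

lemma sg_insert_lt {x y : E} {σ : Finset E} (h : y < x) (hy : y ∉ σ) : sg x (insert y σ) = - sg x σ := by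
  unfold sg
  rw [Finset.filter_insert, if_pos h, Finset.card_insert_of_notMem (by simp [hy]), pow_succ]
  ring

lemma sg_insert_ge {x y : E} {σ : Finset E} (h : ¬ y < x) : sg x (insert y σ) = sg x σ := by
  unfold sg
  rw [Finset.filter_insert, if_neg h]

lemma sg_erase_lt {x y : E} {σ : Finset E} (h : y < x) (hy : y ∈ σ) : sg x (σ.erase y) = - sg x σ := by
  have := sg_insert_lt (σ := σ.erase y) h (by simp)
  rw [Finset.insert_erase hy] at this
  rw [this]; ring

lemma sg_erase_ge {x y : E} {σ : Finset E} (h : ¬ y < x) : sg x (σ.erase y) = sg x σ := by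
  by_cases hy : y ∈ σ
  · have := sg_insert_ge (σ := σ.erase y) h
    rw [Finset.insert_erase hy] at this
    rw [this]
  · rw [Finset.erase_eq_of_notMem hy]

lemma sg_mul_self (x : E) (σ : Finset E) : sg x σ * sg x σ = 1 := by
  unfold sg
  rw [← pow_add, ← two_mul, pow_mul]; simp

lemma single_eq_wd {x : E} {σ : Finset E} (hx : x ∉ σ) :
    Finsupp.single (insert x σ) (1:ℤ) = sg x σ • wd x (Finsupp.single σ 1) := by
  rw [wd_single, if_neg hx, smul_smul, sg_mul_self, one_smul]

lemma bdry_wd (x : E) : bdry ∘ₗ wd x + wd x ∘ₗ bdry = LinearMap.id := by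
  apply ext_single
  intro σ
  simp only [LinearMap.add_apply, LinearMap.comp_apply, LinearMap.id_apply]
  by_cases hx : x ∈ σ
  · rw [wd_single, if_pos hx, map_zero, zero_add, bdry_single, map_sum]
    rw [Finset.sum_eq_single x]
    · rw [map_smul, wd_single, if_neg (by simp), smul_smul, sg_erase_ge (lt_irrefl x), sg_mul_self,
        one_smul, Finset.insert_erase hx]
    · intro y hy hyx
      rw [map_smul, wd_single, if_pos (by rw [Finset.mem_erase]; exact ⟨hyx.symm, hx⟩), smul_zero]
    · intro h; exact absurd hx h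
  · rw [wd_single, if_neg hx, map_smul, bdry_single, bdry_single, map_sum, Finset.sum_insert hx,
      Finset.erase_insert hx, sg_insert_ge (lt_irrefl x), smul_add, smul_smul, sg_mul_self, one_smul,
      add_assoc, Finset.smul_sum, ← Finset.sum_add_distrib]
    rw [Finset.sum_eq_zero, add_zero]
    intro y hy
    have hxy : x ≠ y := fun h => hx (h ▸ hy)
    rw [map_smul, wd_single, if_neg (by rw [Finset.mem_erase]; push Not; intro _; exact hx), smul_smul, smul_smul,
      Finset.erase_insert_of_ne hxy, ← add_smul]
    rcases lt_or_gt_of_ne hxy with h | h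
    · rw [sg_insert_lt h hx, sg_erase_ge (not_lt.mpr h.le)]
      rw [show sg x σ * -sg y σ + sg y σ * sg x σ = 0 by ring, zero_smul]
    · rw [sg_insert_ge (not_lt.mpr h.le), sg_erase_lt h hy]
      rw [show sg x σ * sg y σ + sg y σ * -sg x σ = 0 by ring, zero_smul]

lemma bdry_wd_apply (x : E) (c : Ch E) : bdry (wd x c) = c - wd x (bdry c) := by
  have := LinearMap.congr_fun (bdry_wd x) c
  simp only [LinearMap.add_apply, LinearMap.comp_apply, LinearMap.id_apply] at this
  rw [eq_sub_iff_add_eq]; exact this

lemma wd_wd_self (x : E) (c : Ch E) : wd x (wd x c) = 0 := by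
  have : wd x ∘ₗ wd x = 0 := by
    apply ext_single
    intro σ
    simp only [LinearMap.comp_apply, LinearMap.zero_apply]
    rw [wd_single]
    split_ifs with h
    · simp
    · rw [map_smul, wd_single, if_pos (Finset.mem_insert_self _ _), smul_zero]
  exact LinearMap.congr_fun this c

lemma wd_wd (x y : E) (c : Ch E) : wd x (wd y c) = - wd y (wd x c) := by
  by_cases hxy : x = y
  · subst hxy; rw [wd_wd_self]; simp
  have : wd x ∘ₗ wd y = - (wd y ∘ₗ wd x) := by
    apply ext_single
    intro σ
    simp only [LinearMap.comp_apply, LinearMap.neg_apply]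
    rw [wd_single, wd_single]
    by_cases hx : x ∈ σ <;> by_cases hy : y ∈ σ
    · simp [hx, hy]
    · rw [if_neg hy, if_pos hx, map_smul, wd_single, if_pos (Finset.mem_insert_of_mem hx)]; simp
    · rw [if_pos hy, if_neg hx, map_smul, wd_single, if_pos (Finset.mem_insert_of_mem hy)]; simp
    · rw [if_neg hy, if_neg hx, map_smul, map_smul, wd_single, wd_single,
        if_neg (by rw [Finset.mem_insert]; push Not; exact ⟨hxy, hx⟩),
        if_neg (by rw [Finset.mem_insert]; push Not; exact ⟨fun h => hxy h.symm, hy⟩), smul_smul, smul_smul,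
        Finset.insert_comm, ← neg_smul]
      congr 1
      rcases lt_or_gt_of_ne hxy with h | h
      · rw [sg_insert_ge (not_lt.mpr h.le), sg_insert_lt h hx]; ring
      · rw [sg_insert_ge (not_lt.mpr h.le), sg_insert_lt h hy]; ring
  exact LinearMap.congr_fun this c

lemma bdry_empty : bdry (Finsupp.single (∅ : Finset E) 1) = 0 := by
  rw [bdry_single]; simp

/-- induction principle -/
lemma ch_ind {M : Type*} [AddCommGroup M] {f g : Ch E →ₗ[ℤ] M}
    (h0 : f (Finsupp.single ∅ 1) = g (Finsupp.single ∅ 1))
    (hs : ∀ (x : E) (σ : Finset E), x ∉ σ → f (Finsupp.single σ 1) = g (Finsupp.single σ 1) →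
      f (wd x (Finsupp.single σ 1)) = g (wd x (Finsupp.single σ 1))) : f = g := by
  apply ext_single
  intro σ
  induction σ using Finset.induction_on with
  | empty => exact h0
  | insert x σ hx ih =>
    rw [single_eq_wd hx, map_smul, map_smul, hs x σ hx ih]

lemma bdry_bdry (c : Ch E) : bdry (bdry c) = 0 := by
  have : bdry ∘ₗ bdry = (0 : Ch E →ₗ[ℤ] Ch E) := by
    apply ch_ind
    · simp [bdry_empty]
    · intro x σ hx ih
      simp only [LinearMap.comp_apply, LinearMap.zero_apply] at ih ⊢
      rw [bdry_wd_apply, map_sub, bdry_wd_apply, ih]; simp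
  exact LinearMap.congr_fun this c

lemma strip_wd_self {x : E} {σ : Finset E} (hx : x ∉ σ) :
    strip x (wd x (Finsupp.single σ 1)) = Finsupp.single σ 1 := by
  rw [wd_single, if_neg hx, map_smul, strip_single, if_pos (Finset.mem_insert_self _ _),
    sg_insert_ge (lt_irrefl x), smul_smul, sg_mul_self, one_smul, Finset.erase_insert hx]

lemma strip_wd_ne {x y : E} (hxy : x ≠ y) (c : Ch E) : strip x (wd y c) = - wd y (strip x c) := by
  have : strip x ∘ₗ wd y = - (wd y ∘ₗ strip x) := by
    apply ext_single
    intro σ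
    simp only [LinearMap.comp_apply, LinearMap.neg_apply]
    rw [wd_single, strip_single]
    by_cases hx : x ∈ σ <;> by_cases hy : y ∈ σ
    · rw [if_pos hx, if_pos hy, map_smul, wd_single, if_pos (by rw [Finset.mem_erase]; exact ⟨fun h => hxy h.symm, hy⟩)]
      simp
    · rw [if_pos hx, if_neg hy, map_smul, map_smul, wd_single, strip_single,
        if_pos (Finset.mem_insert_of_mem hx),
        if_neg (by rw [Finset.mem_erase]; push Not; intro _; exact hy), smul_smul, smul_smul,
        Finset.erase_insert_of_ne (fun h => hxy h.symm), ← neg_smul]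
      congr 1
      rcases lt_or_gt_of_ne hxy with h | h
      · rw [sg_insert_ge (not_lt.mpr h.le), sg_erase_lt h hx]; ring
      · rw [sg_insert_lt h hy, sg_erase_ge (not_lt.mpr h.le)]; ring
    · rw [if_neg hx, if_pos hy]; simp
    · rw [if_neg hx, if_neg hy, map_smul, strip_single, if_neg (by rw [Finset.mem_insert]; push Not; exact ⟨hxy, hx⟩)]
      simp
  exact LinearMap.congr_fun this c

lemma strip_strip (x : E) (c : Ch E) : strip x (strip x c) = 0 := by
  have : strip x ∘ₗ strip x = 0 := by
    apply ext_single
    intro σ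
    simp only [LinearMap.comp_apply, LinearMap.zero_apply]
    rw [strip_single]
    split_ifs with h
    · rw [map_smul, strip_single, if_neg (by simp), smul_zero]
    · simp
  exact LinearMap.congr_fun this c

lemma bdry_strip (e : E) (c : Ch E) : bdry (strip e c) = - strip e (bdry c) := by
  have : bdry ∘ₗ strip e = - (strip e ∘ₗ bdry) := by
    apply ch_ind
    · simp only [LinearMap.comp_apply, LinearMap.neg_apply]
      rw [bdry_empty, strip_single]; simp
    · intro x σ hx ih
      simp only [LinearMap.comp_apply, LinearMap.neg_apply] at ih ⊢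
      by_cases hxe : e = x
      · subst hxe
        rw [strip_wd_self hx, bdry_wd_apply, map_sub]
        have h1 : strip e (Finsupp.single σ (1:ℤ)) = 0 := by rw [strip_single, if_neg hx]
        rw [h1]
        have h2 : strip e (wd e (bdry (Finsupp.single σ 1))) = bdry (Finsupp.single σ 1) := by
          rw [bdry_single, map_sum, map_sum]
          apply Finset.sum_congr rfl
          intro y _
          rw [map_smul, map_smul, strip_wd_self (by rw [Finset.mem_erase]; push Not; intro _; exact hx)]
        rw [h2]; simp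
      · rw [strip_wd_ne hxe, map_neg, bdry_wd_apply, bdry_wd_apply, map_sub, strip_wd_ne hxe, ih, map_neg]
  exact LinearMap.congr_fun this c

omit [LinearOrder E] in
lemma single_mem_chains {K : Set (Finset E)} {d : ℤ} {σ : Finset E} (h1 : σ ∈ K)
    (h2 : (σ.card : ℤ) = d + 1) : Finsupp.single σ (1:ℤ) ∈ chains K d := by
  apply Finsupp.single_mem_supported
  exact ⟨h1, h2⟩

omit [LinearOrder E] in
lemma chains_le {K : Set (Finset E)} {d : ℤ} {P : Submodule ℤ (Ch E)}
    (h : ∀ σ ∈ K, (σ.card : ℤ) = d + 1 → Finsupp.single σ (1:ℤ) ∈ P) : chains K d ≤ P := by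
  unfold chains
  rw [Finsupp.supported_eq_span_single, Submodule.span_le]
  rintro _ ⟨σ, ⟨h1, h2⟩, rfl⟩
  exact h σ h1 h2

omit [LinearOrder E] in
lemma map_chains {K : Set (Finset E)} {d : ℤ} {P : Submodule ℤ (Ch E)} (f : Ch E →ₗ[ℤ] Ch E)
    (h : ∀ σ ∈ K, (σ.card : ℤ) = d + 1 → f (Finsupp.single σ (1:ℤ)) ∈ P) {c : Ch E} (hc : c ∈ chains K d) :
    f c ∈ P := by
  have : chains K d ≤ P.comap f := chains_le h
  exact this hc

omit [LinearOrder E] in
lemma chains_mono {K K' : Set (Finset E)} (h : K ⊆ K') (d : ℤ) : chains K d ≤ chains K' d := by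
  apply chains_le
  intro σ h1 h2
  exact single_mem_chains (h h1) h2

lemma strip_mem_chains {K L : Set (Finset E)} {e : E} (h : ∀ σ ∈ K, e ∈ σ → σ.erase e ∈ L) {d : ℤ}
    {c : Ch E} (hc : c ∈ chains K d) : strip e c ∈ chains L (d - 1) := by
  apply map_chains (strip e) _ hc
  intro σ h1 h2
  rw [strip_single]
  split_ifs with he
  · apply Submodule.smul_mem
    apply single_mem_chains (h σ h1 he)
    rw [Finset.card_erase_of_mem he]
    have : 0 < σ.card := Finset.card_pos.mpr ⟨e, he⟩
    push_cast [Nat.cast_sub (Nat.succ_le_of_lt this)]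
    omega
  · exact Submodule.zero_mem _

/-- pushforward along a map of vertices -/
noncomputable def pushL (f : E → E) : List E → Ch E
  | [] => Finsupp.single ∅ 1
  | (x :: l) => wd (f x) (pushL f l)

noncomputable def push (f : E → E) : Ch E →ₗ[ℤ] Ch E :=
  Finsupp.linearCombination ℤ (fun σ : Finset E => pushL f (σ.sort (· ≤ ·)))

lemma push_single (f : E → E) (σ : Finset E) : push f (Finsupp.single σ 1) = pushL f (σ.sort (· ≤ ·)) := by
  simp [push]

lemma push_empty (f : E → E) : push f (Finsupp.single ∅ 1) = Finsupp.single ∅ 1 := by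
  rw [push_single]; simp [pushL]

lemma wd_pushL_mem (f : E → E) (x : E) (l : List E) (hx : x ∈ l) : wd (f x) (pushL f l) = 0 := by
  induction l with
  | nil => simp at hx
  | cons y l ih =>
    rw [pushL]
    by_cases hxy : x = y
    · subst hxy; exact wd_wd_self _ _
    · rw [wd_wd, ih (by simpa [hxy] using hx)]; simp

lemma pushL_orderedInsert (f : E → E) (x : E) (l : List E) (hl : l.Pairwise (· ≤ ·)) (hx : x ∉ l) :
    pushL f (l.orderedInsert (· ≤ ·) x) = ((-1:ℤ) ^ (l.filter (· < x)).length) • wd (f x) (pushL f l) := by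
  induction l with
  | nil => simp [pushL]
  | cons y l ih =>
    rw [List.orderedInsert]
    rw [List.pairwise_cons] at hl
    have hxy : x ≠ y := fun h => hx (by rw [h]; simp)
    have hxl : x ∉ l := fun h => hx (by simp [h])
    split_ifs with h
    · have hlt : x < y := lt_of_le_of_ne h hxy
      have h0 : (y :: l).filter (· < x) = [] := by
        rw [List.filter_eq_nil_iff]
        intro z hz
        rw [List.mem_cons] at hz
        rcases hz with rfl | hz
        · simpa using hlt.le
        · simpa using hlt.le.trans (hl.1 z hz)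
      rw [h0]; simp [pushL]
    · have hlt : y < x := not_le.mp h
      rw [pushL, ih hl.2 hxl, map_smul, pushL, wd_wd, List.filter_cons, if_pos (by simpa using hlt),
        List.length_cons, pow_succ]
      simp

lemma push_wd (f : E → E) (x : E) (c : Ch E) : push f (wd x c) = wd (f x) (push f c) := by
  have : push f ∘ₗ wd x = wd (f x) ∘ₗ push f := by
    apply ext_single
    intro σ
    simp only [LinearMap.comp_apply]
    rw [wd_single]
    by_cases hx : x ∈ σ
    · rw [if_pos hx, map_zero, push_single, wd_pushL_mem]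
      simpa using hx
    · rw [if_neg hx, map_smul, push_single, push_single]
      have h1 : (insert x σ).sort (· ≤ ·) = (σ.sort (· ≤ ·)).orderedInsert (· ≤ ·) x := by
        apply List.Perm.eq_of_pairwise
        · intro a b _ _ h1 h2; exact le_antisymm h1 h2
        · exact Finset.pairwise_sort _ _
        · exact List.Pairwise.orderedInsert _ _ (Finset.pairwise_sort _ _)
        · rw [← Multiset.coe_eq_coe, Finset.sort_eq, Finset.insert_val_of_notMem hx]
          rw [Multiset.coe_eq_coe.mpr (List.perm_orderedInsert _ _ _), ← Multiset.cons_coe, Finset.sort_eq]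
      rw [h1, pushL_orderedInsert f x _ (Finset.pairwise_sort _ _) (by simpa using hx), smul_smul]
      have h2 : ((σ.sort (· ≤ ·)).filter (· < x)).length = (σ.filter (· < x)).card := by
        have h3 : (((σ.sort (· ≤ ·)).filter (· < x) : List E) : Multiset E) = (σ.filter (· < x)).val := by
          rw [← Multiset.filter_coe, Finset.sort_eq, Finset.filter_val]
        rw [← Multiset.coe_card, h3]; rfl
      rw [h2]
      have := sg_mul_self x σ
      unfold sg at this ⊢
      rw [this, one_smul]
  exact LinearMap.congr_fun this c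

lemma push_push (f f' : E → E) (c : Ch E) : push f (push f' c) = push (f ∘ f') c := by
  have : push f ∘ₗ push f' = push (f ∘ f') := by
    apply ch_ind
    · simp only [LinearMap.comp_apply, push_empty]
    · intro x σ hx ih
      simp only [LinearMap.comp_apply] at ih ⊢
      rw [push_wd, push_wd, push_wd, ih]; rfl
  exact LinearMap.congr_fun this c

lemma push_id_on (f : E → E) (σ : Finset E) (h : ∀ e ∈ σ, f e = e) :
    push f (Finsupp.single σ 1) = Finsupp.single σ 1 := by
  induction σ using Finset.induction_on with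
  | empty => exact push_empty f
  | insert x σ hx ih =>
    rw [single_eq_wd hx, map_smul, push_wd, ih (fun e he => h e (Finset.mem_insert_of_mem he)),
      h x (Finset.mem_insert_self _ _)]

lemma push_id (c : Ch E) : push (id : E → E) c = c := by
  have : push (id : E → E) = LinearMap.id := by
    apply ext_single
    intro σ
    exact push_id_on id σ (fun _ _ => rfl)
  rw [this]; rfl

lemma bdry_push (f : E → E) (c : Ch E) : bdry (push f c) = push f (bdry c) := by
  have : bdry ∘ₗ push f = push f ∘ₗ bdry := by
    apply ch_ind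
    · simp only [LinearMap.comp_apply, push_empty, bdry_empty, map_zero]
    · intro x σ hx ih
      simp only [LinearMap.comp_apply] at ih ⊢
      rw [push_wd, bdry_wd_apply, bdry_wd_apply, map_sub, push_wd, ih]
  exact LinearMap.congr_fun this c

lemma wd_mem_supported (x : E) (τ : Finset E) {c : Ch E} (hc : c ∈ Finsupp.supported ℤ ℤ {τ}) :
    wd x c ∈ Finsupp.supported ℤ ℤ {insert x τ} := by
  rw [Finsupp.supported_eq_span_single] at hc
  induction hc using Submodule.span_induction with
  | mem y hy =>
    obtain ⟨σ, hσ, rfl⟩ := hy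
    rw [Set.mem_singleton_iff] at hσ
    subst hσ
    show wd x (Finsupp.single σ 1) ∈ _
    rw [wd_single]
    split_ifs
    · exact Submodule.zero_mem _
    · apply Submodule.smul_mem
      exact Finsupp.single_mem_supported _ _ (Set.mem_singleton _)
  | zero => rw [map_zero]; exact Submodule.zero_mem _
  | add y z _ _ hy hz => rw [map_add]; exact Submodule.add_mem _ hy hz
  | smul r y _ hy => rw [map_smul]; exact Submodule.smul_mem _ _ hy

lemma push_mem_supported (f : E → E) (σ : Finset E) :
    push f (Finsupp.single σ 1) ∈ Finsupp.supported ℤ ℤ {σ.image f} := by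
  induction σ using Finset.induction_on with
  | empty =>
    rw [push_empty, Finset.image_empty]
    exact Finsupp.single_mem_supported _ _ (Set.mem_singleton _)
  | insert x σ hx ih =>
    rw [single_eq_wd hx, map_smul, push_wd, Finset.image_insert]
    exact Submodule.smul_mem _ _ (wd_mem_supported _ _ ih)

lemma push_mem_chains {f : E → E} (hf : Function.Injective f) {K K' : Set (Finset E)}
    (h : ∀ σ ∈ K, σ.image f ∈ K') {d : ℤ} {c : Ch E} (hc : c ∈ chains K d) : push f c ∈ chains K' d := by
  apply map_chains (push f) _ hc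
  intro σ h1 h2
  have h3 := push_mem_supported f σ
  refine (Finsupp.supported_mono ?_) h3
  intro τ hτ
  rw [Set.mem_singleton_iff] at hτ
  subst hτ
  refine ⟨h σ h1, ?_⟩
  rw [Finset.card_image_of_injective _ hf]; exact h2

lemma wd_mem_chains {x : E} {K K' : Set (Finset E)} (h : ∀ σ ∈ K, x ∉ σ → insert x σ ∈ K')
    {d : ℤ} {c : Ch E} (hc : c ∈ chains K d) : wd x c ∈ chains K' (d + 1) := by
  apply map_chains (wd x) _ hc
  intro σ h1 h2
  rw [wd_single]
  split_ifs with hx
  · exact Submodule.zero_mem _
  · apply Submodule.smul_mem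
    apply single_mem_chains (h σ h1 hx)
    rw [Finset.card_insert_of_notMem hx]
    push_cast; omega

lemma bdry_mem_chains {K : Set (Finset E)} (h : ∀ σ ∈ K, ∀ x ∈ σ, σ.erase x ∈ K)
    {d : ℤ} {c : Ch E} (hc : c ∈ chains K (d + 1)) : bdry c ∈ chains K d := by
  apply map_chains bdry _ hc
  intro σ h1 h2
  rw [bdry_single]
  apply Submodule.sum_mem
  intro x hx
  apply Submodule.smul_mem
  apply single_mem_chains (h σ h1 x hx)
  rw [Finset.card_erase_of_mem hx]
  have : 0 < σ.card := Finset.card_pos.mpr ⟨x, hx⟩
  push_cast [Nat.cast_sub (Nat.succ_le_of_lt this)]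
  omega

end Generic

end Pool.Agent.LibSimpChain
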