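import Mathlib

/-!
Reduced simplicial homology (integer coefficients) of families of finite sets over a linearly
ordered vertex type. The linear order is only used to fix the signs of the boundary operator.
-/

namespace Pool.Agent.LibSimpChain

/-- Formal integer combinations of finite subsets of `E`. -/
abbrev Ch (E : Type) : Type := Finset E →₀ ℤ

variable {E : Type}

/-- The `d`-chains of `K`: integer combinations of members of `K` with `d+1` elements. -/
def chains (K : Set (Finset E)) (d : ℤ) : Submodule ℤ (Ch E) :=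
  Finsupp.supported ℤ ℤ {σ | σ ∈ K ∧ (σ.card : ℤ) = d + 1}

variable [LinearOrder E]

/-- `(-1)^i`, where `i` is the number of elements of `σ` below `x`. -/
def sg (x : E) (σ : Finset E) : ℤ := (-1) ^ (σ.filter (· < x)).card

/-- The simplicial boundary `∂σ = ∑_{x ∈ σ} (-1)^{pos x} (σ \ x)`. -/
noncomputable def bdry : Ch E →ₗ[ℤ] Ch E :=
  Finsupp.linearCombination ℤ (fun σ : Finset E => ∑ x ∈ σ, sg x σ • Finsupp.single (σ.erase x) (1:ℤ))

/-- `σ ↦ (-1)^{pos e} (σ \ e)` if `e ∈ σ`, and `0` otherwise; in oriented simplices this is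
`[e, τ_0, ..., τ_k] ↦ [τ_0, ..., τ_k]`. -/
noncomputable def strip (e : E) : Ch E →ₗ[ℤ] Ch E :=
  Finsupp.linearCombination ℤ
    (fun σ : Finset E => if e ∈ σ then sg e σ • Finsupp.single (σ.erase e) (1:ℤ) else 0)

/-- The group of `d`-cycles of `K`. -/
noncomputable def cycles (K : Set (Finset E)) (d : ℤ) : AddSubgroup (Ch E) :=
  (chains K d ⊓ LinearMap.ker bdry).toAddSubgroup

/-- The group of `d`-boundaries of `K`, as a subgroup of the group of `d`-cycles. -/
noncomputable def bdries (K : Set (Finset E)) (d : ℤ) : AddSubgroup (cycles K d) :=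
  ((chains K (d + 1)).map bdry).toAddSubgroup.addSubgroupOf (cycles K d)

/-- Reduced homology `H̃_d(K; ℤ)`: cycles modulo boundaries. -/
abbrev redH (K : Set (Finset E)) (d : ℤ) : Type := cycles K d ⧸ bdries K d

/-- Group homomorphisms `H̃_d(K) → H̃_{d'}(K')`. -/
abbrev HomH (K : Set (Finset E)) (d : ℤ) (K' : Set (Finset E)) (d' : ℤ) : Type :=
  redH K d →+ redH K' d'

/-- `F : H̃_d(K) → H̃_{d'}(K')` is induced by the map `f` of chains: `F [z] = [f z]` for every
cycle `z` (in particular `f z` is a cycle). -/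
def IsInduced {K K' : Set (Finset E)} {d d' : ℤ} (f : Ch E →ₗ[ℤ] Ch E) (F : HomH K d K' d') : Prop :=
  ∀ z : cycles K d, ∃ h : f z ∈ cycles K' d', F z = (⟨f z, h⟩ : cycles K' d')

/-- `0 → A → B → C → 0` is split exact: it is exact, and `B ≃ A × C` compatibly with the maps. -/
def IsSplitExact {A B C : Type} [AddCommGroup A] [AddCommGroup B] [AddCommGroup C]
    (f : A →+ B) (g : B →+ C) : Prop :=
  Function.Injective f ∧ Function.Exact f g ∧ Function.Surjective g ∧
    ∃ φ : B ≃+ A × C, (∀ x, φ (f x) = (x, 0)) ∧ (∀ y, (φ y).2 = g y)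

/-- Split exactness of `0 → H̃_a(K₁) → H̃_b(K₂) → H̃_c(K₃) → 0`. -/
def SplitExactH {K₁ K₂ K₃ : Set (Finset E)} {a b c : ℤ} (i : HomH K₁ a K₂ b) (p : HomH K₂ b K₃ c) :
    Prop := IsSplitExact i p

end Pool.Agent.LibSimpChain
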